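import Pool.Agent.Helper29.SH.Goals

/-!
# Packet SH-TFG (MP_0a002a_al)
-/

set_option autoImplicit false

namespace Pool.Agent.Helper62.SH

open Subgroup Pool.H83Shunkov Pool.Agent.Helper29.SH

/-- **TFG**. -/
theorem t_TFG : S_TFG := by
  intro G _ C N _ hQ h
  let f : C →* G ⧸ N := (QuotientGroup.mk' N).comp C.subtype
  refine good_of_ker_range f ?_ hQ
  apply good_torsionFree
  intro g hg
  have h1 : (g.1.1 : G) ∈ N := by
    have h0 : f g.1 = 1 := g.2
    exact (QuotientGroup.eq_one_iff _).1 h0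
  have h2 : IsOfFinOrder (g.1.1 : G) :=
    (C.subtype.comp f.ker.subtype).isOfFinOrder hg
  exact Subtype.ext (Subtype.ext (h _ g.1.2 h1 h2))

end Pool.Agent.Helper62.SH
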